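import Pool.Agent.helper66.NbrFinal

/-!
# The value of `p(k,m)` for all `k, m` with `k = 1` or `m ≥ 4k`

`p(0,m) = m + 1 + min {r : r(r-1) ≥ m+1}` (attained by complete multipartite graphs), and for `k ≥ 1`
`p(k,m) = (k+2)(k+m+1)` if `k = 1` or `m ≥ 4k` (attained by the rook's graph
`K_{k+2} × K_{k+m+1}` if `m ≥ 1`).

Idea of the lower bound (induction on `k`): in a smaller `(k,m)`-robust graph all degrees are at
most `m+2k`, because deleting `N[x]` leaves a `(k-1,m)`-robust graph. Then the closed neighbourhoods of
any `j ≤ k` vertices contain at most `k-1+j` neighbours of a surviving vertex. With a maximum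
independent set this shows that the vertex set splits into `α(G) ≥ k+2` cliques of size almost `m`; a
system of distinct representatives (Hall) then yields an attack which shows that each of these
cliques has at least `k+m+2` vertices.
-/

set_option autoImplicit false

namespace Pool.Agent.Results.MP_63bb40_co.ExactRegion

open Pool.Agent.Nbr

/-- The value of `p(k,m)` whenever `k = 1` or `m ≥ 4k`. -/
theorem result (k m : ℕ) (h : k = 1 ∨ 4 * k ≤ m) :
    p k m = if k = 0 then m + 1 + sInf {r : ℕ | m + 1 ≤ r * (r - 1)}
      else (k + 2) * (k + m + 1) :=
  exact_region k m h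

end Pool.Agent.Results.MP_63bb40_co.ExactRegion
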