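import Pool.Agent.helper66.NbrFinal
import Pool.Agent.helper66.NbrSmall

/-!
# A 4-neighbour-connected graph on 18 vertices

The known construction of `k'`-neighbour-connected graphs gives `4·5 = 20` vertices for `k' = 4`.
-/

set_option autoImplicit false

namespace Pool.Agent.Results.MP_63bb40_co.FourNC

open Pool.Agent.Nbr

/-- `p(3,0) ≤ 18`: there is a `4`-neighbour-connected graph on `18` vertices. -/
theorem result : p 3 0 ≤ 18 :=
  p_le (Fintype.card_fin 18) g18_robust

end Pool.Agent.Results.MP_63bb40_co.FourNC
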