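import Pool.Agent.helper66.NbrFinal

/-!
# Bounds for `p(k,m)` for all `k ≥ 1` and all `m`
-/

set_option autoImplicit false

namespace Pool.Agent.Results.MP_63bb40_co.TwoSided

open Pool.Agent.Nbr

/-- For all `k ≥ 1` and `m ≥ 0`, `(k+2)(k+2m+3)/2 ≤ p(k,m) ≤ (k+2)(k+m+1)`. -/
theorem result (k m : ℕ) (hk : 1 ≤ k) :
    (k + 2) * (k + 2 * m + 3) ≤ 2 * p k m ∧ p k m ≤ (k + 2) * (k + m + 1) :=
  two_sided k m hk

end Pool.Agent.Results.MP_63bb40_co.TwoSided
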